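import Mathlib
import Pool.Agent.V8H69.TD.Defs

set_option autoImplicit false

namespace Pool.Agent.V8H98.TD
open Equiv Finset Pool.Agent.V8H69.TD

/-- a swap of two points of the same type fixes every member of `B` -/
lemma map_swap {B : Finset (Finset (Fin 14))} {a c : Fin 14} (h : ∀ b ∈ B, a ∈ b ↔ c ∈ b) :
    ∀ b ∈ B, b.map (swap a c).toEmbedding = b := by
  intro b hb
  ext z
  rw [Finset.mem_map_equiv, Equiv.symm_swap]
  by_cases hza : z = a
  · subst hza
    rw [Equiv.swap_apply_left]
    exact (h b hb).symm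
  · by_cases hzc : z = c
    · subst hzc
      rw [Equiv.swap_apply_right]
      exact h b hb
    · rw [Equiv.swap_apply_of_ne_of_ne hza hzc]

lemma map_mul {B : Finset (Finset (Fin 14))} {g h : Perm (Fin 14)}
    (hg : ∀ b ∈ B, b.map g.toEmbedding = b) (hh : ∀ b ∈ B, b.map h.toEmbedding = b) :
    ∀ b ∈ B, b.map (g * h).toEmbedding = b := by
  intro b hb
  have h1 : b.map (g * h).toEmbedding = (b.map h.toEmbedding).map g.toEmbedding := by
    rw [Finset.map_map]
    rfl
  rw [h1, hh b hb, hg b hb]

/-- the type of a point -/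
def ty (B : Finset (Finset (Fin 14))) (x : Fin 14) : Finset (Finset (Fin 14)) := B.filter (fun b => x ∈ b)

lemma ty_eq {B : Finset (Finset (Fin 14))} {a c : Fin 14} (h : ty B a = ty B c) : ∀ b ∈ B, a ∈ b ↔ c ∈ b := by
  intro b hb
  have := Finset.ext_iff.1 h b
  simpa [ty, hb] using this

lemma sum_ty (B : Finset (Finset (Fin 14))) (h5 : ∀ b ∈ B, b.card = 5) :
    ∑ x, (ty B x).card = 5 * B.card := by
  have h1 : ∑ x, (ty B x).card = ∑ b ∈ B, b.card := by
    simp only [ty, Finset.card_filter]
    rw [Finset.sum_comm]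
    refine Finset.sum_congr rfl fun b _ => ?_
    rw [← Finset.card_filter]
    congr 1
    ext z
    simp
  rw [h1, Finset.sum_congr rfl h5, Finset.sum_const, smul_eq_mul, mul_comm]

/-- thirteen distinct subsets of a set with at most four elements have total size at least `22` -/
lemma big {α : Type*} [DecidableEq α] (B : Finset α) (hB : B.card ≤ 4) (F : Finset (Finset α)) (hF : F ⊆ B.powerset)
    (hc : F.card = 13) : B.card = 4 ∧ 22 ≤ ∑ T ∈ F, T.card := by
  have hB4 : B.card = 4 := by
    by_contra hne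
    have h3 : B.card ≤ 3 := by omega
    have := Finset.card_le_card hF
    rw [Finset.card_powerset, hc] at this
    have h2 : 2 ^ B.card ≤ 2 ^ 3 := Nat.pow_le_pow_right (by norm_num) h3
    omega
  refine ⟨hB4, ?_⟩
  have htot : ∑ T ∈ B.powerset, T.card = 32 := by
    rw [Finset.sum_powerset_apply_card (fun k => k)]
    simp [hB4, Finset.sum_range_succ, Nat.choose]
  have hcompl : (B.powerset \ F).card = 3 := by
    rw [Finset.card_sdiff_of_subset hF, Finset.card_powerset, hc, hB4]; norm_num
  have hsplit : ∑ T ∈ B.powerset \ F, T.card + ∑ T ∈ F, T.card = 32 := by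
    rw [Finset.sum_sdiff hF, htot]
  have hle : ∑ T ∈ B.powerset \ F, T.card ≤ 10 := by
    calc ∑ T ∈ B.powerset \ F, T.card ≤ ∑ T ∈ B.powerset \ F, (3 + if T = B then 1 else 0) := by
          refine Finset.sum_le_sum fun T hT => ?_
          have hTB : T ⊆ B := Finset.mem_powerset.1 (Finset.mem_sdiff.1 hT).1
          have hTc : T.card ≤ 4 := hB4 ▸ Finset.card_le_card hTB
          by_cases hTe : T = B
          · simp [hTe, hB4]
          · simp only [hTe, if_false, add_zero]
            have : T.card < B.card := Finset.card_lt_card (Finset.ssubset_iff_subset_ne.2 ⟨hTB, hTe⟩)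
            omega
      _ = 9 + ∑ T ∈ B.powerset \ F, (if T = B then 1 else 0) := by
          rw [Finset.sum_add_distrib, Finset.sum_const, hcompl]; rfl
      _ ≤ 9 + 1 := by
          refine Nat.add_le_add_left ?_ _
          rw [Finset.sum_ite_eq']
          split_ifs <;> norm_num
      _ = 10 := rfl
  omega

theorem p3 : P3 := by
  intro B hB h5
  by_cases hthree : ∃ a b c : Fin 14, a ≠ b ∧ b ≠ c ∧ a ≠ c ∧ ty B a = ty B b ∧ ty B b = ty B c
  · obtain ⟨a, b, c, hab, hbc, hac, h1, h2⟩ := hthree
    refine ⟨swap a b * swap b c, ?_, ?_, map_mul (map_swap (ty_eq h1)) (map_swap (ty_eq h2))⟩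
    · rw [Perm.sign_mul, Perm.sign_swap hab, Perm.sign_swap hbc]; rfl
    · intro h
      have := congrArg (fun g : Perm (Fin 14) => g c) h
      simp only [Perm.mul_apply, Perm.one_apply, Equiv.swap_apply_right] at this
      exact hac this
  by_cases htwo : ∃ a b c d : Fin 14, a ≠ b ∧ c ≠ d ∧ a ≠ c ∧ a ≠ d ∧ b ≠ c ∧ b ≠ d ∧ ty B a = ty B b ∧ ty B c = ty B d
  · obtain ⟨a, b, c, d, hab, hcd, hac, had, hbc, hbd, h1, h2⟩ := htwo
    refine ⟨swap a b * swap c d, ?_, ?_, map_mul (map_swap (ty_eq h1)) (map_swap (ty_eq h2))⟩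
    · rw [Perm.sign_mul, Perm.sign_swap hab, Perm.sign_swap hcd]; rfl
    · intro h
      have := congrArg (fun g : Perm (Fin 14) => g a) h
      simp only [Perm.mul_apply, Perm.one_apply, Equiv.swap_apply_of_ne_of_ne hac had, Equiv.swap_apply_left] at this
      exact hab this.symm
  exfalso
  -- a set of thirteen points on which `ty` is injective
  have hS : ∃ p : Fin 14, Set.InjOn (ty B) ((univ.erase p : Finset (Fin 14)) : Set (Fin 14)) := by
    by_cases hinj : Function.Injective (ty B)
    · exact ⟨0, hinj.injOn⟩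
    · rw [Function.not_injective_iff] at hinj
      obtain ⟨p, q, hpq, hne⟩ := hinj
      refine ⟨p, ?_⟩
      intro c hc d hd hcd
      by_contra hcdne
      have hcp : c ≠ p := by simpa using hc
      have hdp : d ≠ p := by simpa using hd
      by_cases hqc : q = c
      · subst hqc
        exact hthree ⟨p, q, d, hne, hcdne, Ne.symm hdp, hpq, hcd⟩
      · by_cases hqd : q = d
        · subst hqd
          exact hthree ⟨p, q, c, hne, Ne.symm hcdne, Ne.symm hcp, hpq, hcd.symm⟩
        · exact htwo ⟨p, q, c, d, hne, hcdne, Ne.symm hcp, Ne.symm hdp, hqc, hqd, hpq, hcd⟩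
  obtain ⟨p, hp⟩ := hS
  have hcard : ((univ.erase p).image (ty B)).card = 13 := by
    rw [Finset.card_image_of_injOn hp]; simp
  have hsub : (univ.erase p).image (ty B) ⊆ B.powerset := by
    intro T hT
    obtain ⟨x, _, rfl⟩ := Finset.mem_image.1 hT
    exact Finset.mem_powerset.2 (Finset.filter_subset _ _)
  obtain ⟨hB4, h22⟩ := big B hB _ hsub hcard
  rw [Finset.sum_image hp] at h22
  have hle : ∑ x ∈ univ.erase p, (ty B x).card ≤ ∑ x, (ty B x).card :=
    Finset.sum_le_sum_of_subset (Finset.erase_subset _ _)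
  rw [sum_ty B h5, hB4] at hle
  omega

end Pool.Agent.V8H98.TD
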